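import Mathlib
import Pool.Agent.Helper5.QC5

namespace Pool.Agent.Results.MP_19aea4_nt.QCongruence

open Pool.Agent.Helper5.QCDefs

/-- For every odd `n`, the sums `L_n` and `R_n` are congruent modulo `M_n`. -/
theorem result : ∀ n : ℕ, Odd n → Cong (sumL q a b n) (sumR q a b n) (modulus n) :=
  Pool.Agent.Helper5.QC5.main

end Pool.Agent.Results.MP_19aea4_nt.QCongruence
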